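import Mathlib
import Pool.Agent.H104R3.EG.Stmts

set_option autoImplicit false

/-! Task PGaR of project EG (MP_585e73_co): a maximal normal abelian subgroup of a finite `p`-group is
self-centralizing. -/

namespace Pool.Agent.H335R3.EGPGa

open Subgroup

theorem pga : Pool.Agent.H104R3.EG.PGaR := by
  intro p hp P _ _ hP A hAn hAc hmax x hx
  by_contra hxA
  have hpf : Fact p.Prime := ⟨hp⟩
  have hC : (Subgroup.centralizer (A : Set P)).Normal := by
    constructor
    intro c hc g
    rw [Subgroup.mem_centralizer_iff] at hc ⊢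
    intro y hy
    have h1 : g⁻¹ * y * g ∈ (A : Set P) := by
      have := hAn.conj_mem y hy g⁻¹
      rw [inv_inv] at this
      exact this
    have h2 := hc _ h1
    have h3 : y * (g * c * g⁻¹) = g * ((g⁻¹ * y * g) * c) * g⁻¹ := by group
    rw [h3, h2]
    group
  set Cb : Subgroup (P ⧸ A) := (Subgroup.centralizer (A : Set P)).map (QuotientGroup.mk' A) with hCb
  have hCbn : Cb.Normal := hC.map _ (QuotientGroup.mk'_surjective A)
  have hPq : IsPGroup p (P ⧸ A) := hP.to_quotient A
  have hPc : IsPGroup p (ConjAct (P ⧸ A)) := hPq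
  have hxC : (QuotientGroup.mk' A x) ∈ Cb := by
    refine Subgroup.mem_map_of_mem _ ?_
    rw [Subgroup.mem_centralizer_iff]
    intro y hy
    exact (hx y hy).symm
  have hx1 : QuotientGroup.mk' A x ≠ 1 := by
    intro h
    exact hxA ((QuotientGroup.eq_one_iff x).1 h)
  have hdvd : p ∣ Nat.card Cb := by
    rcases (hPq.to_subgroup Cb).card_eq_or_dvd with h | h
    · exfalso
      have h1 := (Nat.card_eq_one_iff_unique.1 h).1
      exact hx1 (congrArg Subtype.val (Subsingleton.elim (⟨_, hxC⟩ : Cb) 1))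
    · exact h
  have hfix1 : (1 : Cb) ∈ MulAction.fixedPoints (ConjAct (P ⧸ A)) Cb := by
    intro g
    exact smul_one g
  obtain ⟨b, hb, hb1⟩ := hPc.exists_fixed_point_of_prime_dvd_card_of_fixed_point Cb hdvd hfix1
  obtain ⟨c, hc, hcb⟩ := Subgroup.mem_map.1 b.2
  have hcent : ∀ g : P ⧸ A, g * (b : P ⧸ A) = b * g := by
    intro g
    have h1 := hb (ConjAct.toConjAct g)
    have h2 := congrArg Subtype.val h1
    rw [ConjAct.Subgroup.val_conj_smul, ConjAct.smul_def, ConjAct.ofConjAct_toConjAct] at h2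
    rw [mul_inv_eq_iff_eq_mul] at h2
    exact h2
  rw [Subgroup.mem_centralizer_iff] at hc
  -- the bigger subgroup
  set B : Subgroup P := (Subgroup.zpowers (b : P ⧸ A)).comap (QuotientGroup.mk' A) with hB
  have hzn : (Subgroup.zpowers (b : P ⧸ A)).Normal := by
    constructor
    intro y hy g
    obtain ⟨n, rfl⟩ := Subgroup.mem_zpowers_iff.1 hy
    have h1 : Commute g (b : P ⧸ A) := hcent g
    have h2 := (h1.zpow_right n).eq
    rw [h2, mul_assoc, mul_inv_cancel, mul_one]
    exact hy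
  have hBn : B.Normal := hzn.comap _
  have hAB : A ≤ B := by
    intro a ha
    rw [hB, Subgroup.mem_comap]
    have : QuotientGroup.mk' A a = 1 := (QuotientGroup.eq_one_iff a).2 ha
    rw [this]
    exact one_mem _
  have hform : ∀ y ∈ B, ∃ (n : ℤ) (a : P), a ∈ A ∧ y = c ^ n * a := by
    intro y hy
    rw [hB, Subgroup.mem_comap] at hy
    obtain ⟨n, hn⟩ := Subgroup.mem_zpowers_iff.1 hy
    refine ⟨n, (c ^ n)⁻¹ * y, ?_, by group⟩
    rw [← QuotientGroup.eq_one_iff, ← QuotientGroup.mk'_apply, map_mul, map_inv, map_zpow, hcb, hn,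
      inv_mul_cancel]
  have hca : ∀ (n : ℤ) (a : P), a ∈ A → c ^ n * a = a * c ^ n := by
    intro n a ha
    have h1 : Commute a c := hc a ha
    exact (h1.zpow_right n).eq.symm
  have hBc : ∀ u ∈ B, ∀ v ∈ B, u * v = v * u := by
    intro u hu v hv
    obtain ⟨n, a, ha, rfl⟩ := hform u hu
    obtain ⟨m, a', ha', rfl⟩ := hform v hv
    have e1 : c ^ n * a * (c ^ m * a') = c ^ n * (a * c ^ m) * a' := by group
    have e2 : c ^ m * a' * (c ^ n * a) = c ^ m * (a' * c ^ n) * a := by group
    rw [e1, e2, ← hca m a ha, ← hca n a' ha']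
    have e3 : c ^ n * (c ^ m * a) * a' = (c ^ n * c ^ m) * (a * a') := by group
    have e4 : c ^ m * (c ^ n * a') * a = (c ^ m * c ^ n) * (a' * a) := by group
    rw [e3, e4, hAc a ha a' ha', ← zpow_add, ← zpow_add, add_comm]
  have hBA := hmax B hBn hBc hAB
  have hcB : c ∈ B := by
    rw [hB, Subgroup.mem_comap, hcb]
    exact Subgroup.mem_zpowers _
  rw [hBA] at hcB
  apply hb1
  apply Subtype.ext
  rw [← hcb]
  exact ((QuotientGroup.eq_one_iff c).2 hcB).symm

end Pool.Agent.H335R3.EGPGa
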