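import Mathlib
import Pool.Agent.H329R3.PM.Stmts

/-!
# Task TaskStep of project H329-PME
-/

set_option autoImplicit false

open MeasureTheory Set Filter Topology

namespace Pool.Agent.H335R3.PMStep

open Pool.Agent.H329R3.PM

theorem meas_Sop {k : ℝ → ℝ → ℝ} (hk : Measurable (fun p : ℝ × ℝ => k p.1 p.2)) {w : ℝ → ℝ}
    (hw : Measurable w) : Measurable (Sop k w) := by
  have h1 : Measurable (fun p : ℝ × ℝ => k p.1 p.2 * w p.2) := hk.mul (hw.comp measurable_snd)
  have h2 : StronglyMeasurable (fun x : ℝ => ∫ y, (fun p : ℝ × ℝ => k p.1 p.2 * w p.2) (x, y)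
      ∂(volume.restrict (Ioc (0 : ℝ) 1))) :=
    StronglyMeasurable.integral_prod_right' h1.stronglyMeasurable
  exact h2.measurable

theorem int_bdd {k : ℝ → ℝ} {w : ℝ → ℝ} (hk : IntegrableOn k (Ioc (0 : ℝ) 1))
    (hw : Measurable w) {B : ℝ} (hB : ∀ y, |w y| ≤ B) :
    IntegrableOn (fun y => k y * w y) (Ioc (0 : ℝ) 1) := by
  have h := Integrable.bdd_mul (c := B) hk hw.aestronglyMeasurable
    (Filter.Eventually.of_forall fun y => by rw [Real.norm_eq_abs]; exact hB y)
  exact h.congr (Filter.Eventually.of_forall fun y => mul_comm _ _)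

theorem int_cell {w : ℝ → ℝ} (hw : Measurable w) {B : ℝ} (hB : ∀ y, |w y| ≤ B) (p q : ℝ) :
    IntegrableOn w (Ioc p q) := by
  refine Measure.integrableOn_of_bounded (M := B) ?_ hw.aestronglyMeasurable ?_
  · exact measure_Ioc_lt_top.ne
  · exact Filter.Eventually.of_forall fun y => by rw [Real.norm_eq_abs]; exact hB y

theorem taskStep : TaskStep := by
  intro hSel k hk m M ε a hm hε hε1 ha w hw
  obtain ⟨th, hth⟩ : ∃ th : ℝ → ℝ, th = Sop k w := ⟨_, rfl⟩
  have hlow : ∀ r ∈ Ioc (0 : ℝ) 1, m ≤ th r := by rw [hth]; exact hw.lower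
  have hup : ∀ r ∈ Ioc (0 : ℝ) 1, th r ≤ M := by rw [hth]; exact hw.upper
  have hsub : ∀ r ∈ Ioc (0 : ℝ) 1, w r ≤ (th r) ^ 2 := by rw [hth]; exact hw.sub
  have hthm : Measurable th := by rw [hth]; exact meas_Sop hk.meas hw.prof.meas
  have h1mem : (1 : ℝ) ∈ Ioc (0 : ℝ) 1 := ⟨one_pos, le_rfl⟩
  have hM : 0 < M := lt_of_lt_of_le hm ((hlow 1 h1mem).trans (hup 1 h1mem))
  have hM2 : 0 < 2 * M ^ 2 := by positivity
  have ha0 : 0 < a := ha.1
  have ha1 : a < 1 := ha.2
  have hIoc : Ioc a 1 ⊆ Ioc (0 : ℝ) 1 := fun y hy => ⟨ha0.trans hy.1, hy.2⟩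
  have hthsq : ∀ r ∈ Ioc (0 : ℝ) 1, (th r) ^ 2 ≤ M ^ 2 := by
    intro r hr
    exact pow_le_pow_left₀ (hm.le.trans (hlow r hr)) (hup r hr) 2
  have hwM : ∀ y, w y ≤ M ^ 2 := by
    intro y
    by_cases hy : y ∈ Ioc (0 : ℝ) 1
    · exact (hsub y hy).trans (hthsq y hy)
    · rw [hw.prof.supp y hy]; positivity
  obtain ⟨n, hn, hmix⟩ := hk.mix a ha (ε * m / 2 / (2 * M ^ 2)) (by positivity)
  -- the functions f and g
  obtain ⟨f, hf⟩ : ∃ f : ℝ → ℝ, f = (Ioc a 1).indicator w := ⟨_, rfl⟩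
  obtain ⟨T, hT⟩ : ∃ T : Set ℝ, T = Ioc a 1 ∩ {y | 0 < w y} := ⟨_, rfl⟩
  obtain ⟨g, hg⟩ : ∃ g : ℝ → ℝ, g = T.indicator (fun y => (th y) ^ 2) := ⟨_, rfl⟩
  have hTm : MeasurableSet T := by
    rw [hT]
    exact measurableSet_Ioc.inter (measurableSet_lt measurable_const hw.prof.meas)
  have hfm : Measurable f := by rw [hf]; exact hw.prof.meas.indicator measurableSet_Ioc
  have hgm : Measurable g := by rw [hg]; exact (hthm.pow_const 2).indicator hTm
  have hf0 : ∀ y, 0 ≤ f y := by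
    intro y; rw [hf]; exact indicator_nonneg (fun y _ => hw.prof.nonneg y) y
  have hg0 : ∀ y, 0 ≤ g y := by
    intro y; rw [hg]; exact indicator_nonneg (fun y _ => sq_nonneg _) y
  have hgle : ∀ y ∈ Ioc (0 : ℝ) 1, g y ≤ (th y) ^ 2 := by
    intro y _
    rw [hg]
    by_cases h : y ∈ T
    · rw [indicator_of_mem h]
    · rw [indicator_of_notMem h]; positivity
  have hgM : ∀ y, g y ≤ M ^ 2 := by
    intro y
    rw [hg]
    by_cases h : y ∈ T
    · rw [indicator_of_mem h]
      rw [hT] at h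
      exact hthsq y (hIoc h.1)
    · rw [indicator_of_notMem h]; positivity
  have hfg : ∀ y, f y ≤ g y := by
    intro y
    rw [hf]
    by_cases h : y ∈ Ioc a 1
    · rw [indicator_of_mem h]
      rcases (hw.prof.nonneg y).eq_or_lt with h0 | h0
      · rw [← h0]; exact hg0 y
      · have : y ∈ T := by rw [hT]; exact ⟨h, h0⟩
        rw [hg, indicator_of_mem this]
        exact hsub y (hIoc h)
    · rw [indicator_of_notMem h]; exact hg0 y
  obtain ⟨S, hSm, hSsub, hScell⟩ := hSel a n ha hn f g hfm hgm hf0 hfg ⟨M ^ 2, hgM⟩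
  obtain ⟨G, hG⟩ : ∃ G : ℝ → ℝ, G = S.indicator g := ⟨_, rfl⟩
  rw [← hG] at hScell
  have hGm : Measurable G := by rw [hG]; exact hgm.indicator hSm
  have hG0 : ∀ y, 0 ≤ G y := by
    intro y; rw [hG]; exact indicator_nonneg (fun y _ => hg0 y) y
  have hGg : ∀ y, G y ≤ g y := by
    intro y; rw [hG]; exact indicator_le_self' (fun y _ => hg0 y) y
  have hGM : ∀ y, G y ≤ M ^ 2 := fun y => (hGg y).trans (hgM y)
  have hGout : ∀ y, y ∉ Ioc a 1 → G y = 0 := by
    intro y hy
    rw [hG, indicator_of_notMem (fun h => hy (hSsub h))]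
  -- the new profile
  obtain ⟨w', hw'⟩ : ∃ w' : ℝ → ℝ, w' = fun y => if y ≤ a then (1 + ε) * w y else (1 + ε) * G y :=
    ⟨_, rfl⟩
  have hε2 : 0 < 1 + ε := by linarith
  have hw'1 : ∀ y, y ≤ a → w' y = (1 + ε) * w y := by
    intro y hy; rw [hw']; simp [hy]
  have hw'2 : ∀ y, a < y → w' y = (1 + ε) * G y := by
    intro y hy; rw [hw']; simp [not_le.2 hy]
  have hw'm : Measurable w' := by
    rw [hw']
    exact Measurable.ite measurableSet_Iic (hw.prof.meas.const_mul _) (hGm.const_mul _)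
  have hw'0 : ∀ y, 0 ≤ w' y := by
    intro y
    rcases le_or_gt y a with h | h
    · rw [hw'1 y h]; exact mul_nonneg hε2.le (hw.prof.nonneg y)
    · rw [hw'2 y h]; exact mul_nonneg hε2.le (hG0 y)
  have hw'B : ∀ y, w' y ≤ 2 * M ^ 2 := by
    intro y
    have hM0 : 0 ≤ M ^ 2 := by positivity
    rcases le_or_gt y a with h | h
    · rw [hw'1 y h]
      have := mul_le_mul_of_nonneg_left (hwM y) hε2.le
      nlinarith
    · rw [hw'2 y h]
      have := mul_le_mul_of_nonneg_left (hGM y) hε2.le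
      nlinarith
  have hw'supp : ∀ y, y ∉ Ioc (0 : ℝ) 1 → w' y = 0 := by
    intro y hy
    rcases le_or_gt y a with h | h
    · rw [hw'1 y h, hw.prof.supp y hy, mul_zero]
    · rw [hw'2 y h, hGout y (fun h' => hy (hIoc h')), mul_zero]
  have hw'sq : ∀ y ∈ Ioc (0 : ℝ) 1, w' y ≤ (1 + ε) * (th y) ^ 2 := by
    intro y hy
    rcases le_or_gt y a with h | h
    · rw [hw'1 y h]; exact mul_le_mul_of_nonneg_left (hsub y hy) hε2.le
    · rw [hw'2 y h]; exact mul_le_mul_of_nonneg_left ((hGg y).trans (hgle y hy)) hε2.le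
  -- the oscillating function
  obtain ⟨h, hh⟩ : ∃ h : ℝ → ℝ, h = fun y => (2 * M ^ 2)⁻¹ * (w' y - (1 + ε) * w y) := ⟨_, rfl⟩
  have hosc : Osc a n h := by
    refine ⟨?_, ?_, ?_, ?_⟩
    · rw [hh]; exact (hw'm.sub (hw.prof.meas.const_mul _)).const_mul _
    · intro y
      rw [hh]
      simp only
      rw [abs_mul, abs_of_pos (inv_pos.2 hM2), inv_mul_le_iff₀ hM2, mul_one, abs_le]
      have e1 := mul_le_mul_of_nonneg_left (hwM y) hε2.le
      have e2 := mul_nonneg hε2.le (hw.prof.nonneg y)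
      have e3 := hw'0 y
      have e4 := hw'B y
      have hM0 : 0 ≤ M ^ 2 := by positivity
      constructor
      · nlinarith
      · linarith
    · intro y hy
      rw [hh]
      simp only
      rcases le_or_gt y a with h | h
      · rw [hw'1 y h, sub_self, mul_zero]
      · have hy1 : y ∉ Ioc (0 : ℝ) 1 := fun h' => hy ⟨h, h'.2⟩
        rw [hw'supp y hy1, hw.prof.supp y hy1, mul_zero, sub_zero, mul_zero]
    · intro i hi
      have hn0 : (0 : ℝ) < n := by exact_mod_cast hn
      have hcell : Ioc (a + (1 - a) * i / n) (a + (1 - a) * (i + 1) / n) ⊆ Ioc a 1 := by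
        intro y hy
        refine ⟨lt_of_le_of_lt ?_ hy.1, hy.2.trans ?_⟩
        · have : 0 ≤ (1 - a) * i / n := by
            have : 0 ≤ 1 - a := by linarith
            positivity
          linarith
        · have h2 : ((i : ℝ) + 1) ≤ n := by exact_mod_cast hi
          have h3 : (1 - a) * (i + 1) / n ≤ 1 - a := by
            rw [div_le_iff₀ hn0]
            exact mul_le_mul_of_nonneg_left h2 (by linarith)
          linarith
      have e1 : ∫ y in Ioc (a + (1 - a) * i / n) (a + (1 - a) * (i + 1) / n), h y =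
          ∫ y in Ioc (a + (1 - a) * i / n) (a + (1 - a) * (i + 1) / n),
            ((2 * M ^ 2)⁻¹ * (1 + ε)) * (G y - f y) := by
        apply setIntegral_congr_fun measurableSet_Ioc
        intro y hy
        have hy1 := hcell hy
        rw [hh, hf]
        simp only
        rw [hw'2 y hy1.1, indicator_of_mem hy1]
        ring
      rw [e1, integral_const_mul, integral_sub, hScell i hi, sub_self, mul_zero]
      · exact int_cell hGm (B := M ^ 2) (fun y => by rw [abs_of_nonneg (hG0 y)]; exact hGM y) _ _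
      · exact int_cell hfm (B := M ^ 2)
          (fun y => by rw [abs_of_nonneg (hf0 y)]; exact (hfg y).trans (hgM y)) _ _
  -- the key estimate
  have hkey : ∀ r ∈ Ioc (0 : ℝ) 1, |Sop k w' r - (1 + ε) * th r| ≤ ε * m / 2 := by
    intro r hr
    have h1 := hmix h hosc r hr
    have h2 : Sop k h r = (2 * M ^ 2)⁻¹ * (Sop k w' r - (1 + ε) * th r) := by
      have i1 := int_bdd (hk.int r hr) hw'm (B := 2 * M ^ 2)
        (fun y => by rw [abs_of_nonneg (hw'0 y)]; exact hw'B y)
      have i2 := int_bdd (hk.int r hr) hw.prof.meas (B := M ^ 2)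
        (fun y => by rw [abs_of_nonneg (hw.prof.nonneg y)]; exact hwM y)
      rw [hth]
      unfold Sop
      rw [← integral_const_mul, ← integral_sub i1 (i2.const_mul _), ← integral_const_mul]
      congr 1
      funext y
      rw [hh]
      ring
    rw [h2, abs_mul, abs_of_pos (inv_pos.2 hM2), inv_mul_le_iff₀ hM2] at h1
    refine h1.trans_eq ?_
    field_simp
  have hlow' : ∀ r ∈ Ioc (0 : ℝ) 1, (1 + ε / 2) * th r ≤ Sop k w' r := by
    intro r hr
    have h1 := (abs_le.1 (hkey r hr)).1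
    have h2 := mul_le_mul_of_nonneg_left (hlow r hr) hε.le
    nlinarith
  have hup' : ∀ r ∈ Ioc (0 : ℝ) 1, Sop k w' r ≤ (1 + 2 * ε) * th r := by
    intro r hr
    have h1 := (abs_le.1 (hkey r hr)).2
    have h2 := mul_le_mul_of_nonneg_left (hlow r hr) hε.le
    nlinarith [mul_pos hε hm]
  refine ⟨w', ⟨⟨hw'm, hw'0, ⟨2 * M ^ 2, hw'B⟩, hw'supp⟩, ?_, ?_, ?_⟩, ?_, ?_⟩
  · intro r hr
    have h1 := hlow' r hr
    have h2 := hlow r hr
    have h3 : 0 ≤ ε / 2 * th r := mul_nonneg (by linarith) (hm.le.trans h2)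
    linarith
  · intro r hr
    have h1 := hup' r hr
    have h2 := mul_le_mul_of_nonneg_left (hup r hr) (show (0 : ℝ) ≤ 1 + 2 * ε by linarith)
    linarith
  · intro r hr
    have h1 := hlow' r hr
    have h2 : 0 ≤ th r := hm.le.trans (hlow r hr)
    calc w' r ≤ (1 + ε) * (th r) ^ 2 := hw'sq r hr
      _ ≤ ((1 + ε / 2) * th r) ^ 2 := by
          have : 0 ≤ (th r) ^ 2 := sq_nonneg _
          nlinarith [mul_nonneg (sq_nonneg ε) this]
      _ ≤ (Sop k w' r) ^ 2 := pow_le_pow_left₀ (by positivity) h1 2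
  · intro r hr
    have h0 := hkey r hr
    have h1 := hlow' r hr
    have h2 := hup' r hr
    have h3 : 0 ≤ th r := hm.le.trans (hlow r hr)
    have h4 : Sop k w r = th r := by rw [hth]
    rw [h4, abs_le]
    constructor
    · nlinarith [mul_nonneg hε.le h3]
    · linarith
  · intro y hy
    have h1 := hw'2 y hy.1
    by_cases hS : y ∈ S
    · by_cases hwy : 0 < w y
      · right
        refine ⟨hwy, ?_⟩
        have hyT : y ∈ T := by rw [hT]; exact ⟨hy, hwy⟩
        rw [h1, hG, indicator_of_mem hS, hg, indicator_of_mem hyT, hth]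
      · left
        have hyT : y ∉ T := by rw [hT]; exact fun h => hwy h.2
        rw [h1, hG, indicator_of_mem hS, hg, indicator_of_notMem hyT, mul_zero]
    · left
      rw [h1, hG, indicator_of_notMem hS, mul_zero]

end Pool.Agent.H335R3.PMStep
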