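import Mathlib
import Pool.Agent.H96R3.BC.Stmts

/-!
# TASK GROW of project BIGCOEF (by helper335)
-/

set_option autoImplicit false

open Finset

namespace Pool.Agent.H335R3.BCGrow

open Pool.Agent.H96R3.BC

/-- `exp (sqrt L) ≤ x ^ ε` when `L = log x` is at least `1 / ε ^ 2`. -/
lemma aa_le {x : ℕ} {ε : ℝ} (hx : 0 < x) (hε : 0 < ε) (hL : (1 / ε) ^ 2 ≤ Real.log x) :
    AA x ≤ (x : ℝ) ^ ε := by
  have hx' : (0 : ℝ) < x := by exact_mod_cast hx
  have h1 : 1 / ε ≤ Real.sqrt (Real.log x) := by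
    apply Real.le_sqrt_of_sq_le
    exact hL
  have hL0 : 0 ≤ Real.log x := le_trans (sq_nonneg _) hL
  have h2 : Real.sqrt (Real.log x) ≤ Real.log x * ε := by
    have h3 : Real.sqrt (Real.log x) * Real.sqrt (Real.log x) = Real.log x :=
      Real.mul_self_sqrt hL0
    have h4 : 1 ≤ ε * Real.sqrt (Real.log x) := by
      have := mul_le_mul_of_nonneg_left h1 hε.le
      rwa [mul_one_div_cancel hε.ne'] at this
    have h5 : 0 ≤ Real.sqrt (Real.log x) := Real.sqrt_nonneg _
    calc Real.sqrt (Real.log x) = 1 * Real.sqrt (Real.log x) := (one_mul _).symm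
      _ ≤ (ε * Real.sqrt (Real.log x)) * Real.sqrt (Real.log x) :=
          mul_le_mul_of_nonneg_right h4 h5
      _ = Real.log x * ε := by rw [mul_assoc, h3, mul_comm]
  rw [AA, Real.rpow_def_of_pos hx']
  exact Real.exp_le_exp.2 h2

theorem taskGrow : TaskGrow := by
  intro C₁ X P0 a0 hB hX0 y hy1 hy2
  have hXi : ∀ i, Real.exp 16 ≤ X i := by
    intro i
    induction i with
    | zero => exact hX0
    | succ i ih =>
      refine le_trans ?_ (hB.tower i)
      apply Real.exp_le_exp.2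
      have h16 : (16 : ℝ) ≤ Real.exp 16 := by
        have := Real.add_one_le_exp (16 : ℝ)
        linarith
      have h1 : (16 : ℝ) ≤ X i := h16.trans ih
      have h2 : (16 : ℝ) ≤ (X i : ℝ) ^ 2 := by nlinarith
      have h3 := Real.add_one_le_exp ((X i : ℝ) ^ 2)
      linarith
  have hXpos : ∀ i, 0 < X i := by
    intro i
    have h1 := hXi i
    have h2 := Real.exp_pos 16
    have h3 : (0 : ℝ) < X i := lt_of_lt_of_le h2 h1
    exact_mod_cast h3
  have hlog : ∀ i, 16 ≤ Real.log (X i) := by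
    intro i
    have h3 : (0 : ℝ) < X i := by exact_mod_cast hXpos i
    rw [Real.le_log_iff_exp_le h3]
    exact hXi i
  -- membership
  have hmem : ∀ p, a0 p ≠ 0 → ∃ i, p ∈ P0 i := by
    intro p hp
    by_contra hcon
    push Not at hcon
    exact hp (hB.off p hcon)
  have hval : ∀ p, a0 p ≠ 0 → ∃ i, X i < p ∧ p ≤ 2 * X i ∧ |y p| = AA (X i) := by
    intro p hp
    obtain ⟨i, hi⟩ := hmem p hp
    obtain ⟨-, h2, h3⟩ := hB.mem i p hi
    refine ⟨i, h2, h3, ?_⟩
    rw [hy2 p hp, hB.val i p hi, abs_of_pos]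
    exact Real.exp_pos _
  have hquarter : ∀ p : ℕ, p.Prime → |y p| ≤ (p : ℝ) ^ (1 / 4 : ℝ) := by
    intro p hp
    have hp1 : (1 : ℝ) ≤ p := by exact_mod_cast hp.one_lt.le
    by_cases h0 : a0 p = 0
    · exact (hy1 p hp h0).trans (Real.one_le_rpow hp1 (by norm_num))
    · obtain ⟨i, h1, -, h3⟩ := hval p h0
      rw [h3]
      refine (aa_le (hXpos i) (by norm_num : (0 : ℝ) < 1 / 4) ?_).trans ?_
      · have := hlog i
        norm_num
        linarith
      · apply Real.rpow_le_rpow (by positivity) _ (by norm_num)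
        exact_mod_cast h1.le
  refine ⟨?_, hquarter⟩
  intro ε hε
  set N : ℕ := ⌈2 * Real.exp ((1 / ε) ^ 2)⌉₊ with hN
  set M : ℝ := 1 + (N : ℝ) ^ (1 / 4 : ℝ) with hM
  have hM1 : 1 ≤ M := by
    have : (0 : ℝ) ≤ (N : ℝ) ^ (1 / 4 : ℝ) := by positivity
    linarith
  -- bound for one prime
  have hone : ∀ p : ℕ, p.Prime → |y p| ≤ (if p ≤ N then M else 1) * (p : ℝ) ^ ε := by
    intro p hp
    have hp1 : (1 : ℝ) ≤ p := by exact_mod_cast hp.one_lt.le
    have hpe : (1 : ℝ) ≤ (p : ℝ) ^ ε := Real.one_le_rpow hp1 hε.le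
    by_cases hpN : p ≤ N
    · rw [if_pos hpN]
      have h1 : |y p| ≤ M := by
        refine (hquarter p hp).trans ?_
        have h2 : (p : ℝ) ^ (1 / 4 : ℝ) ≤ (N : ℝ) ^ (1 / 4 : ℝ) := by
          apply Real.rpow_le_rpow (by positivity) _ (by norm_num)
          exact_mod_cast hpN
        linarith
      calc |y p| ≤ M := h1
        _ = M * 1 := (mul_one M).symm
        _ ≤ M * (p : ℝ) ^ ε := mul_le_mul_of_nonneg_left hpe (by linarith)
    · rw [if_neg hpN, one_mul]
      rw [not_le] at hpN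
      by_cases h0 : a0 p = 0
      · exact (hy1 p hp h0).trans hpe
      · obtain ⟨i, h1, h2, h3⟩ := hval p h0
        rw [h3]
        have hXr : (0 : ℝ) < X i := by exact_mod_cast hXpos i
        refine (aa_le (hXpos i) hε ?_).trans ?_
        · rw [Real.le_log_iff_exp_le hXr]
          have h4 : 2 * Real.exp ((1 / ε) ^ 2) ≤ N := Nat.le_ceil _
          have h5 : (N : ℝ) ≤ p := by exact_mod_cast hpN.le
          have h6 : (p : ℝ) ≤ 2 * X i := by exact_mod_cast h2
          linarith
        · apply Real.rpow_le_rpow (by positivity) _ hε.le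
          exact_mod_cast h1.le
  refine ⟨M ^ (N + 1), ?_⟩
  intro n hn
  have hnr : (1 : ℝ) ≤ n := by exact_mod_cast hn
  have hrhs : 0 ≤ M ^ (N + 1) * (n : ℝ) ^ ε := by positivity
  rw [cf]
  by_cases hsq : Squarefree n
  · rw [if_pos hsq, Finset.abs_prod]
    have h1 : ∏ p ∈ n.primeFactors, |y p| ≤
        ∏ p ∈ n.primeFactors, ((if p ≤ N then M else 1) * (p : ℝ) ^ ε) := by
      apply Finset.prod_le_prod
      · intro p _
        exact abs_nonneg _
      · intro p hp
        exact hone p (Nat.prime_of_mem_primeFactors hp)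
    refine h1.trans ?_
    rw [Finset.prod_mul_distrib]
    have h2 : ∏ p ∈ n.primeFactors, (if p ≤ N then M else 1) ≤ M ^ (N + 1) := by
      rw [Finset.prod_ite, Finset.prod_const_one, mul_one, Finset.prod_const]
      apply pow_le_pow_right₀ hM1
      have h3 : (n.primeFactors.filter (fun p => p ≤ N)) ⊆ Finset.range (N + 1) := by
        intro p hp
        rw [Finset.mem_filter] at hp
        rw [Finset.mem_range]
        omega
      calc (n.primeFactors.filter (fun p => p ≤ N)).card ≤ (Finset.range (N + 1)).card :=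
            Finset.card_le_card h3
        _ = N + 1 := Finset.card_range _
    have h4 : ∏ p ∈ n.primeFactors, (p : ℝ) ^ ε ≤ (n : ℝ) ^ ε := by
      rw [Real.finset_prod_rpow _ _ (fun p _ => Nat.cast_nonneg p)]
      apply Real.rpow_le_rpow _ _ hε.le
      · exact Finset.prod_nonneg (fun p _ => Nat.cast_nonneg p)
      · have h5 : ∏ p ∈ n.primeFactors, p ≤ n :=
          Nat.le_of_dvd (by omega) (Nat.prod_primeFactors_dvd n)
        have h6 : ((∏ p ∈ n.primeFactors, p : ℕ) : ℝ) ≤ (n : ℝ) := Nat.cast_le.2 h5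
        rw [Nat.cast_prod] at h6
        exact h6
    exact mul_le_mul h2 h4 (Finset.prod_nonneg (fun p _ => by positivity)) (by positivity)
  · rw [if_neg hsq, abs_zero]
    exact hrhs

end Pool.Agent.H335R3.BCGrow
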