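import Mathlib

set_option autoImplicit false

namespace Pool.Agent.H335R3

open MvPolynomial

/-- index type of the indeterminates: entries of two n by r matrices -/
abbrev Vr (n r : ℕ) : Type := (Fin n × Fin r) ⊕ (Fin n × Fin r)

/-- the polynomial ring of the generic pair of factors -/
abbrev RR (n r : ℕ) : Type := MvPolynomial (Vr n r) ℂ

noncomputable def AA {n r : ℕ} (i : Fin n) (a : Fin r) : RR n r := X (Sum.inl (i, a))
noncomputable def BB {n r : ℕ} (i : Fin n) (a : Fin r) : RR n r := X (Sum.inr (i, a))

/-- matrices supported on the pattern and orthogonal to the tangent space -/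
structure IsS (n l r : ℕ) (M : Fin n → Fin n → RR n r) : Prop where
  supp : ∀ i j, l ≤ ((j - i : Fin n) : ℕ) → M i j = 0
  left : ∀ a j, ∑ i, AA i a * M i j = 0
  right : ∀ i a, ∑ j, M i j * BB j a = 0

/-- row relations valid for all such matrices -/
def Rel (n l r : ℕ) (c : Fin n → RR n r) : Prop :=
  ∀ M, IsS n l r M → ∀ j, ∑ i, c i * M i j = 0

/-- the shift of indeterminates -/
noncomputable def sh {n r : ℕ} (s : Fin n) : RR n r →ₐ[ℂ] RR n r :=
  rename (Sum.map (fun p => (p.1 + s, p.2)) (fun p => (p.1 + s, p.2)))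

theorem sh_AA {n r : ℕ} (s i : Fin n) (a : Fin r) : sh s (AA i a) = AA (i + s) a := by
  simp [sh, AA]

theorem sh_BB {n r : ℕ} (s i : Fin n) (a : Fin r) : sh s (BB i a) = BB (i + s) a := by
  simp [sh, BB]

theorem sh_sh {n r : ℕ} [NeZero n] (s : Fin n) (x : RR n r) : sh s (sh (-s) x) = x := by
  unfold sh
  rw [rename_rename]
  have : (Sum.map (fun p : Fin n × Fin r => (p.1 + s, p.2)) (fun p : Fin n × Fin r => (p.1 + s, p.2))) ∘
      (Sum.map (fun p : Fin n × Fin r => (p.1 + -s, p.2)) (fun p : Fin n × Fin r => (p.1 + -s, p.2))) = id := by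
    funext x
    rcases x with ⟨i, a⟩ | ⟨i, a⟩ <;> simp
  rw [this, rename_id]
  rfl

theorem isS_shift {n l r : ℕ} [NeZero n] {M : Fin n → Fin n → RR n r} (hM : IsS n l r M) (s : Fin n) :
    IsS n l r (fun i j => sh (-s) (M (i + s) (j + s))) := by
  refine ⟨?_, ?_, ?_⟩
  · intro i j h
    have : M (i + s) (j + s) = 0 := hM.supp _ _ (by
      have : (j + s) - (i + s) = j - i := by abel
      rw [this]; exact h)
    simp [this]
  · intro a j
    have h1 : ∀ i : Fin n, AA i a * sh (-s) (M (i + s) (j + s)) = sh (-s) (AA (i + s) a * M (i + s) (j + s)) := by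
      intro i
      rw [map_mul, sh_AA]
      congr 2
      abel
    simp only [h1]
    rw [← map_sum]
    rw [Fintype.sum_equiv (Equiv.addRight s) (fun i => AA (i + s) a * M (i + s) (j + s)) (fun i => AA i a * M i (j + s)) (fun i => rfl)]
    rw [hM.left, map_zero]
  · intro i a
    have h1 : ∀ j : Fin n, sh (-s) (M (i + s) (j + s)) * BB j a = sh (-s) (M (i + s) (j + s) * BB (j + s) a) := by
      intro j
      rw [map_mul, sh_BB]
      congr 2
      abel
    simp only [h1]
    rw [← map_sum]
    rw [Fintype.sum_equiv (Equiv.addRight s) (fun j => M (i + s) (j + s) * BB (j + s) a) (fun j => M (i + s) j * BB j a) (fun i => rfl)]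
    rw [hM.right, map_zero]

theorem rel_shift {n l r : ℕ} [NeZero n] {c : Fin n → RR n r} (hc : Rel n l r c) (s : Fin n) :
    Rel n l r (fun i => sh s (c (i - s))) := by
  intro M hM j
  have h1 : ∀ i : Fin n, sh s (c (i - s)) * M i j = sh s (c (i - s) * sh (-s) (M ((i - s) + s) ((j - s) + s))) := by
    intro i
    rw [map_mul, sh_sh, sub_add_cancel, sub_add_cancel]
  simp only [h1]
  rw [← map_sum]
  rw [Fintype.sum_equiv (Equiv.subRight s) (fun i => c (i - s) * sh (-s) (M ((i - s) + s) ((j - s) + s)))
    (fun i => c i * sh (-s) (M (i + s) ((j - s) + s))) (fun i => rfl)]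
  have := hc _ (isS_shift hM s) (j - s)
  rw [this, map_zero]

/-- arithmetic of windows -/
theorem win {n : ℕ} (i i' j j' : Fin n) (h1 : ((j - i : Fin n) : ℕ) < ((j' - i : Fin n) : ℕ))
    (h2 : ((j' - i : Fin n) : ℕ) < ((j' - i' : Fin n) : ℕ)) :
    ((j - i : Fin n) : ℕ) < ((j - i' : Fin n) : ℕ) := by
  have e : ∀ x y : Fin n, ((x - y : Fin n) : ℕ) = if (y : ℕ) ≤ x then (x : ℕ) - y else n - y + x := by
    intro x y
    rw [Fin.sub_def]
    simp only
    have hx := x.2
    have hy := y.2
    split_ifs with h
    · have : n - (y : ℕ) + x = (x - y) + n := by omega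
      rw [this, Nat.add_mod_right, Nat.mod_eq_of_lt (by omega)]
    · rw [Nat.mod_eq_of_lt (by omega)]
  rw [e, e] at h1
  rw [e, e] at h2
  rw [e, e]
  have := i.2
  have := i'.2
  have := j.2
  have := j'.2
  split_ifs at * <;> omega

/-- a nonzero short relation kills everything -/
theorem isS_eq_zero_of_rel {n l r : ℕ} [NeZero n] (j₀ : Fin n) (c₀ : Fin n → RR n r) (hc₀ : c₀ ≠ 0)
    (hr : Rel n l r c₀) (hs : ∀ i, c₀ i ≠ 0 → l ≤ ((j₀ - i : Fin n) : ℕ))
    {M : Fin n → Fin n → RR n r} (hM : IsS n l r M) : ∀ i j, M i j = 0 := by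
  classical
  -- maximal l'
  let Q : ℕ → Prop := fun l' => ∃ (j : Fin n) (c : Fin n → RR n r), c ≠ 0 ∧ Rel n l r c ∧
    ∀ i, c i ≠ 0 → l' ≤ ((j - i : Fin n) : ℕ)
  have hQl : Q l := ⟨j₀, c₀, hc₀, hr, hs⟩
  have hQn : ∀ k, n ≤ k → ¬ Q k := by
    rintro k hk ⟨j, c, hc, -, h⟩
    obtain ⟨i, hi⟩ := Function.ne_iff.mp hc
    have := h i hi
    have := (j - i : Fin n).2
    omega
  obtain ⟨l', hl', hQ1, hQ2⟩ : ∃ l', l ≤ l' ∧ Q l' ∧ ¬ Q (l' + 1) := by
    by_contra hcon
    push Not at hcon
    have : ∀ k, l ≤ k → Q k := by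
      intro k hk
      induction k, hk using Nat.le_induction with
      | base => exact hQl
      | succ k hk ih => exact hcon k hk ih
    exact hQn (max l n) (le_max_right _ _) (this _ (le_max_left _ _))
  obtain ⟨j₁, c₁, hc₁, hr₁, hs₁⟩ := hQ1
  have hl'n : l' < n := by
    obtain ⟨i, hi⟩ := Function.ne_iff.mp hc₁
    have := hs₁ i hi
    have := (j₁ - i : Fin n).2
    omega
  -- for each j' a relation
  have key : ∀ j' : Fin n, ∃ c : Fin n → RR n r, Rel n l r c ∧ (∀ i, c i ≠ 0 → l' ≤ ((j' - i : Fin n) : ℕ)) ∧
      (∀ i, ((j' - i : Fin n) : ℕ) = l' → c i ≠ 0) := by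
    intro j'
    let s := j' - j₁
    refine ⟨fun i => sh s (c₁ (i - s)), rel_shift hr₁ s, ?_, ?_⟩
    · intro i hi
      have h1 : c₁ (i - s) ≠ 0 := by
        intro h
        apply hi
        simp [h]
      have := hs₁ _ h1
      have e : j₁ - (i - s) = j' - i := by
        simp only [s]; abel
      rwa [e] at this
    · intro i hi hzero
      apply hQ2
      refine ⟨j', fun i => sh s (c₁ (i - s)), ?_, rel_shift hr₁ s, ?_⟩
      · intro h
        apply hc₁
        funext k
        have := congrFun h (k + s)
        simp only [add_sub_cancel_right, Pi.zero_apply] at this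
        have inj : Function.Injective (sh (n := n) (r := r) s) := by
          unfold sh
          apply rename_injective
          apply Function.Injective.sumMap
          · rintro ⟨a, b⟩ ⟨a', b'⟩ h
            simpa using h
          · rintro ⟨a, b⟩ ⟨a', b'⟩ h
            simpa using h
        exact inj (by rw [this]; simp)
      · intro k hk
        have h1 : c₁ (k - s) ≠ 0 := by
          intro h
          apply hk
          simp [h]
        have h2 := hs₁ _ h1
        have e : j₁ - (k - s) = j' - k := by
          simp only [s]; abel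
        rw [e] at h2
        rcases h2.lt_or_eq with h3 | h3
        · exact h3
        · exfalso
          -- k = i
          have : k = i := by
            have h4 : (j' - k : Fin n) = j' - i := Fin.ext (by rw [← h3, hi])
            have := sub_right_injective h4
            exact this
          subst this
          exact hk hzero
  -- downward induction
  intro i j
  have main : ∀ w : ℕ, ∀ i : Fin n, ((j - i : Fin n) : ℕ) + w = n → M i j = 0 := by
    intro w
    induction w using Nat.strong_induction_on with
    | _ w ih =>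
      intro i hi
      by_cases h : l ≤ ((j - i : Fin n) : ℕ)
      · exact hM.supp i j h
      · push Not at h
        -- choose j' with (j' - i) = l'
        obtain ⟨j', hj'⟩ : ∃ j' : Fin n, ((j' - i : Fin n) : ℕ) = l' := by
          refine ⟨i + ⟨l', hl'n⟩, ?_⟩
          rw [add_sub_cancel_left]
        obtain ⟨c, hc1, hc2, hc3⟩ := key j'
        have hsum := hc1 M hM j
        rw [Finset.sum_eq_single i] at hsum
        · rcases mul_eq_zero.mp hsum with h0 | h0
          · exact absurd h0 (hc3 i hj')
          · exact h0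
        · intro i' _ hne
          by_cases hc0 : c i' = 0
          · rw [hc0, zero_mul]
          · have h5 := hc2 i' hc0
            have h6 : l' < ((j' - i' : Fin n) : ℕ) := by
              rcases h5.lt_or_eq with h7 | h7
              · exact h7
              · exfalso
                apply hne
                have h4 : (j' - i' : Fin n) = j' - i := Fin.ext (by rw [← h7, hj'])
                exact sub_right_injective h4
            have h8 : ((j - i : Fin n) : ℕ) < ((j - i' : Fin n) : ℕ) :=
              win i i' j j' (by omega) (by omega)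
            have h9 : M i' j = 0 := by
              have hlt := (j - i' : Fin n).2
              exact ih (n - ((j - i' : Fin n) : ℕ)) (by omega) i' (by omega)
            rw [h9, mul_zero]
        · intro h; exact absurd (Finset.mem_univ i) h
  have hlt := (j - i : Fin n).2
  exact main (n - ((j - i : Fin n) : ℕ)) i (by omega)

end Pool.Agent.H335R3
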