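import Mathlib
import Pool.Agent.H335R3.Circ1

set_option autoImplicit false

namespace Pool.Agent.H335R3

open MvPolynomial

/-- tangent vector -/
noncomputable def XX {n r : ℕ} (Y Z : Fin n → Fin r → RR n r) (i j : Fin n) : RR n r :=
  ∑ a, (AA i a * Y j a + Z i a * BB j a)

theorem pderiv_AA {n r : ℕ} (i j : Fin n) (a b : Fin r) :
    pderiv (Sum.inr (j, b) : Vr n r) (AA i a) = 0 := by
  unfold AA
  rw [pderiv_X_of_ne (by simp)]

theorem pderiv_BB {n r : ℕ} (i j : Fin n) (a b : Fin r) :
    pderiv (Sum.inr (j, b) : Vr n r) (BB i a) = if i = j ∧ a = b then 1 else 0 := by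
  classical
  unfold BB
  rw [pderiv_X]
  by_cases h : i = j ∧ a = b
  · rw [if_pos h]
    obtain ⟨rfl, rfl⟩ := h
    simp
  · rw [if_neg h]
    rw [Pi.single_apply, if_neg]
    intro h'
    apply h
    simpa using h'

/-- derivative lemma: M^T Z = 0 -/
theorem MTZ {n l r : ℕ} {M : Fin n → Fin n → RR n r} (hM : IsS n l r M)
    (Y Z : Fin n → Fin r → RR n r)
    (hX : ∀ i j : Fin n, ((j - i : Fin n) : ℕ) < l → XX Y Z i j = 0) (j₀ : Fin n) (b : Fin r) :
    ∑ i, Z i b * M i j₀ = 0 := by
  classical
  set D : Derivation ℂ (RR n r) (RR n r) := pderiv (Sum.inr (j₀, b) : Vr n r) with hD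
  have h0 : ∑ i, ∑ j, D (M i j) * XX Y Z i j = 0 := by
    apply Finset.sum_eq_zero
    intro i _
    apply Finset.sum_eq_zero
    intro j _
    by_cases h : ((j - i : Fin n) : ℕ) < l
    · rw [hX i j h, mul_zero]
    · rw [hM.supp i j (by omega), map_zero, zero_mul]
  have h1 : ∑ i, ∑ j, D (M i j) * XX Y Z i j =
      ∑ j, ∑ a, Y j a * (∑ i, AA i a * D (M i j)) + ∑ i, ∑ a, Z i a * (∑ j, D (M i j) * BB j a) := by
    have : ∀ i j, D (M i j) * XX Y Z i j = ∑ a, Y j a * (AA i a * D (M i j)) + ∑ a, Z i a * (D (M i j) * BB j a) := by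
      intro i j
      unfold XX
      rw [Finset.mul_sum, ← Finset.sum_add_distrib]
      apply Finset.sum_congr rfl
      intro a _
      ring
    simp only [this, Finset.sum_add_distrib]
    congr 1
    · rw [Finset.sum_comm]
      apply Finset.sum_congr rfl
      intro j _
      rw [Finset.sum_comm]
      apply Finset.sum_congr rfl
      intro a _
      rw [Finset.mul_sum]
    · apply Finset.sum_congr rfl
      intro i _
      rw [Finset.sum_comm]
      apply Finset.sum_congr rfl
      intro a _
      rw [Finset.mul_sum]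
  have h2 : ∀ j a, ∑ i, AA i a * D (M i j) = 0 := by
    intro j a
    have := congrArg D (hM.left a j)
    rw [map_sum, map_zero] at this
    rw [← this]
    apply Finset.sum_congr rfl
    intro i _
    rw [D.leibniz, hD, pderiv_AA]
    simp
  have h3 : ∀ i a, ∑ j, D (M i j) * BB j a = if a = b then - M i j₀ else 0 := by
    intro i a
    have := congrArg D (hM.right i a)
    rw [map_sum, map_zero] at this
    have h4 : ∀ j, D (M i j * BB j a) = D (M i j) * BB j a + (if j = j₀ ∧ a = b then M i j else 0) := by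
      intro j
      rw [D.leibniz, hD, pderiv_BB]
      split_ifs <;> simp [mul_comm, add_comm]
    simp only [h4, Finset.sum_add_distrib] at this
    by_cases hab : a = b
    · rw [if_pos hab]
      simp only [hab, and_true, Finset.sum_ite_eq', Finset.mem_univ, if_true] at this
      rw [hab]
      exact eq_neg_of_add_eq_zero_left this
    · rw [if_neg hab]
      simpa [hab] using this
  rw [h1] at h0
  simp only [h2, h3, mul_zero, Finset.sum_const_zero, zero_add, mul_ite, mul_neg] at h0
  simp only [Finset.sum_ite_eq', Finset.mem_univ, if_true, Finset.sum_neg_distrib, neg_eq_zero] at h0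
  exact h0

/-- each column of a tangent vector supported off the pattern is a row relation -/
theorem rel_col {n l r : ℕ} (Y Z : Fin n → Fin r → RR n r)
    (hX : ∀ i j : Fin n, ((j - i : Fin n) : ℕ) < l → XX Y Z i j = 0) (j₁ : Fin n) :
    Rel n l r (fun i => XX Y Z i j₁) := by
  intro M hM j
  have : ∀ i, XX Y Z i j₁ * M i j = ∑ a, Y j₁ a * (AA i a * M i j) + ∑ a, BB j₁ a * (Z i a * M i j) := by
    intro i
    unfold XX
    rw [Finset.sum_mul, ← Finset.sum_add_distrib]
    apply Finset.sum_congr rfl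
    intro a _
    ring
  simp only [this, Finset.sum_add_distrib]
  rw [Finset.sum_comm, Finset.sum_comm (f := fun i a => BB j₁ a * (Z i a * M i j))]
  simp only [← Finset.mul_sum]
  simp only [hM.left, MTZ hM Y Z hX, mul_zero, Finset.sum_const_zero, add_zero]

/-- generic square block has nonzero determinant -/
theorem det_block_ne {n r : ℕ} (f : Fin r × Fin r → Vr n r) (hf : Function.Injective f) :
    (Matrix.of (fun i j : Fin r => (X (f (i, j)) : RR n r))).det ≠ 0 := by
  have h := Matrix.det_mvPolynomialX_ne_zero (Fin r) ℂ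
  have e : (Matrix.of (fun i j : Fin r => (X (f (i, j)) : RR n r))) =
      (rename f : MvPolynomial (Fin r × Fin r) ℂ →ₐ[ℂ] RR n r).mapMatrix (Matrix.mvPolynomialX (Fin r) (Fin r) ℂ) := by
    ext1 i j
    simp [Matrix.mvPolynomialX_apply]
  rw [e, ← AlgHom.map_det]
  intro h0
  apply h
  apply rename_injective f hf
  rw [h0, map_zero]

theorem BB_top_inj {n r : ℕ} (hr : r ≤ n) (z : Fin r → RR n r)
    (h : ∀ j : Fin r, ∑ a, z a * BB (Fin.castLE hr j) a = 0) : z = 0 := by
  have hdet := det_block_ne (n := n) (fun p : Fin r × Fin r => (Sum.inr (Fin.castLE hr p.1, p.2) : Vr n r))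
    (by rintro ⟨a, b⟩ ⟨a', b'⟩ h; simpa using h)
  apply Matrix.eq_zero_of_mulVec_eq_zero hdet
  funext j
  simp only [Matrix.mulVec, dotProduct, Matrix.of_apply, Pi.zero_apply]
  rw [← h j]
  apply Finset.sum_congr rfl
  intro a _
  rw [mul_comm]; rfl

theorem AA_top_inj {n r : ℕ} (hr : r ≤ n) (z : Fin r → RR n r)
    (h : ∀ j : Fin r, ∑ a, AA (Fin.castLE hr j) a * z a = 0) : z = 0 := by
  have hdet := det_block_ne (n := n) (fun p : Fin r × Fin r => (Sum.inl (Fin.castLE hr p.1, p.2) : Vr n r))
    (by rintro ⟨a, b⟩ ⟨a', b'⟩ h; simpa using h)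
  apply Matrix.eq_zero_of_mulVec_eq_zero hdet
  funext j
  simp only [Matrix.mulVec, dotProduct, Matrix.of_apply, Pi.zero_apply]
  rw [← h j]
  rfl

/-- if X = 0 and the top block of Y vanishes then Y = Z = 0 -/
theorem YZ_zero {n r : ℕ} (hr : r ≤ n) (Y Z : Fin n → Fin r → RR n r)
    (hY : ∀ (j : Fin n) (a : Fin r), (j : ℕ) < r → Y j a = 0)
    (hX : ∀ i j, XX Y Z i j = 0) : Y = 0 ∧ Z = 0 := by
  have hZ : Z = 0 := by
    funext i
    apply BB_top_inj hr
    intro j
    have := hX i (Fin.castLE hr j)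
    unfold XX at this
    rw [← this]
    apply Finset.sum_congr rfl
    intro a _
    rw [hY _ _ (by simp), mul_zero, zero_add]
  refine ⟨?_, hZ⟩
  funext j
  apply AA_top_inj hr
  intro i
  have := hX (Fin.castLE hr i) j
  unfold XX at this
  rw [← this]
  apply Finset.sum_congr rfl
  intro a _
  rw [hZ]
  simp

end Pool.Agent.H335R3
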