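import Mathlib
import Pool.Agent.H335R3.Circ2

set_option autoImplicit false

namespace Pool.Agent.H335R3

open MvPolynomial

abbrev Pat (n l : ℕ) : Type := {p : Fin n × Fin n // ((p.2 - p.1 : Fin n) : ℕ) < l}

theorem card_pat (n l : ℕ) : Fintype.card (Pat n l) ≤ n * l := by
  have : Fintype.card (Pat n l) ≤ Fintype.card (Fin n × Fin l) := by
    apply Fintype.card_le_of_injective (fun e : Pat n l => (e.1.1, (⟨((e.1.2 - e.1.1 : Fin n) : ℕ), e.2⟩ : Fin l)))
    rintro ⟨⟨i, j⟩, h⟩ ⟨⟨i', j'⟩, h'⟩ heq
    simp only [Prod.mk.injEq, Fin.mk.injEq] at heq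
    obtain ⟨h1, h2⟩ := heq
    subst h1
    have hn : NeZero n := ⟨by have := i.2; omega⟩
    have : j = j' := by
      have h4 : (j - i : Fin n) = j' - i := Fin.ext h2
      exact sub_left_injective h4
    subst this
    rfl
  simpa using this

/-- the extension by zero of the lower block -/
def ext0 {n r : ℕ} {K : Type*} [Zero K] (y : Fin (n - r) × Fin r → K) (j : Fin n) (a : Fin r) : K :=
  if h : r ≤ (j : ℕ) then y (⟨(j : ℕ) - r, by omega⟩, a) else 0

abbrev FK (n r : ℕ) : Type := FractionRing (RR n r)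

/-- the linear parametrization of the tangent space over the function field -/
noncomputable def tau (n l r : ℕ) :
    ((Fin (n - r) × Fin r → FK n r) × (Fin n × Fin r → FK n r)) →ₗ[FK n r] (Pat n l → FK n r) where
  toFun w := fun e => ∑ a, (algebraMap (RR n r) (FK n r) (AA e.1.1 a) * ext0 w.1 e.1.2 a +
    w.2 (e.1.1, a) * algebraMap (RR n r) (FK n r) (BB e.1.2 a))
  map_add' := by
    intro x y
    funext e
    simp only [Pi.add_apply, ← Finset.sum_add_distrib]
    apply Finset.sum_congr rfl
    intro a _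
    unfold ext0
    split_ifs <;> simp <;> ring
  map_smul' := by
    intro c x
    funext e
    simp only [RingHom.id_apply, Pi.smul_apply, smul_eq_mul, Finset.mul_sum]
    apply Finset.sum_congr rfl
    intro a _
    unfold ext0
    split_ifs <;> simp <;> ring

theorem exists_ker {n l r : ℕ} (hr : r ≤ n) (h : n * l ≤ r * (2 * n - r))
    {M : Fin n → Fin n → RR n r} (hM : IsS n l r M) (hne : ∃ i j, M i j ≠ 0) :
    ∃ w, w ≠ 0 ∧ tau n l r w = 0 := by
  classical
  by_contra hcon
  push Not at hcon
  have hinj : Function.Injective (tau n l r) := by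
    rw [injective_iff_map_eq_zero]
    intro w hw
    by_contra hw0
    exact hcon w hw0 hw
  have hfr : Module.finrank (FK n r) ((Fin (n - r) × Fin r → FK n r) × (Fin n × Fin r → FK n r)) = r * (2 * n - r) := by
    rw [Module.finrank_prod, Module.finrank_fintype_fun_eq_card, Module.finrank_fintype_fun_eq_card]
    simp only [Fintype.card_prod, Fintype.card_fin]
    obtain ⟨k, rfl⟩ := Nat.exists_eq_add_of_le hr
    have h1 : r + k - r = k := by omega
    have h2 : 2 * (r + k) - r = r + 2 * k := by omega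
    rw [h1, h2]
    ring
  have hfr2 : Module.finrank (FK n r) (Pat n l → FK n r) = Fintype.card (Pat n l) := by
    rw [Module.finrank_fintype_fun_eq_card]
  have hle := LinearMap.finrank_le_finrank_of_injective hinj
  have heq : Module.finrank (FK n r) ((Fin (n - r) × Fin r → FK n r) × (Fin n × Fin r → FK n r)) =
      Module.finrank (FK n r) (Pat n l → FK n r) := by
    apply le_antisymm hle
    rw [hfr, hfr2]
    exact (card_pat n l).trans h
  have hsurj : Function.Surjective (tau n l r) :=
    (LinearMap.injective_iff_surjective_of_finrank_eq_finrank heq).mp hinj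
  obtain ⟨i, j, hij⟩ := hne
  have hlt : ((j - i : Fin n) : ℕ) < l := by
    by_contra hcon2
    exact hij (hM.supp i j (by omega))
  obtain ⟨w, hw⟩ := hsurj (Pi.single ⟨(i, j), hlt⟩ 1)
  -- pairing
  set φ := algebraMap (RR n r) (FK n r) with hφ
  have hpair : ∑ e : Pat n l, φ (M e.1.1 e.1.2) * tau n l r w e = 0 := by
    have h1 : ∑ e : Pat n l, φ (M e.1.1 e.1.2) * tau n l r w e =
        ∑ p : Fin n × Fin n, φ (M p.1 p.2) * ∑ a, (φ (AA p.1 a) * ext0 w.1 p.2 a + w.2 (p.1, a) * φ (BB p.2 a)) := by
      have := Finset.sum_subtype_of_mem (p := fun p : Fin n × Fin n => ((p.2 - p.1 : Fin n) : ℕ) < l)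
        (s := Finset.univ.filter (fun p : Fin n × Fin n => ((p.2 - p.1 : Fin n) : ℕ) < l))
        (fun p : Fin n × Fin n => φ (M p.1 p.2) * ∑ a, (φ (AA p.1 a) * ext0 w.1 p.2 a + w.2 (p.1, a) * φ (BB p.2 a)))
        (by intro x hx; simpa using hx)
      have h2 : (Finset.univ.filter (fun p : Fin n × Fin n => ((p.2 - p.1 : Fin n) : ℕ) < l)).subtype
          (fun p : Fin n × Fin n => ((p.2 - p.1 : Fin n) : ℕ) < l) = Finset.univ := by
        ext x
        simp [x.2]
      rw [h2] at this
      have h3 : ∑ e : Pat n l, φ (M e.1.1 e.1.2) * tau n l r w e = ∑ e : Pat n l, (fun p : Fin n × Fin n => φ (M p.1 p.2) * ∑ a, (φ (AA p.1 a) * ext0 w.1 p.2 a + w.2 (p.1, a) * φ (BB p.2 a))) e.1 := rfl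
      rw [h3, this]
      rw [Finset.sum_filter_of_ne]
      intro p _ hp
      by_contra hcon2
      apply hp
      rw [hM.supp p.1 p.2 (by omega), map_zero, zero_mul]
    rw [h1, Fintype.sum_prod_type]
    have h2 : ∀ i j : Fin n, φ (M i j) * ∑ a, (φ (AA i a) * ext0 w.1 j a + w.2 (i, a) * φ (BB j a)) =
        ∑ a, ext0 w.1 j a * φ (AA i a * M i j) + ∑ a, w.2 (i, a) * φ (M i j * BB j a) := by
      intro i j
      rw [Finset.mul_sum, ← Finset.sum_add_distrib]
      apply Finset.sum_congr rfl
      intro a _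
      rw [map_mul, map_mul]
      ring
    simp only [h2]
    simp only [Finset.sum_add_distrib]
    have h3 : ∑ i, ∑ j, ∑ a, ext0 w.1 j a * φ (AA i a * M i j) = 0 := by
      rw [Finset.sum_comm]
      apply Finset.sum_eq_zero
      intro j _
      rw [Finset.sum_comm]
      apply Finset.sum_eq_zero
      intro a _
      rw [← Finset.mul_sum, ← map_sum, hM.left, map_zero, mul_zero]
    have h4 : ∑ i, ∑ j, ∑ a, w.2 (i, a) * φ (M i j * BB j a) = 0 := by
      apply Finset.sum_eq_zero
      intro i _
      rw [Finset.sum_comm]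
      apply Finset.sum_eq_zero
      intro a _
      rw [← Finset.mul_sum, ← map_sum, hM.right, map_zero, mul_zero]
    rw [h3, h4, add_zero]
  rw [hw] at hpair
  simp only [Pi.single_apply, mul_ite, mul_one, mul_zero, Finset.sum_ite_eq', Finset.mem_univ, if_true] at hpair
  apply hij
  have hinjφ : Function.Injective φ := IsFractionRing.injective _ _
  exact hinjφ (by rw [hpair, map_zero])

theorem exists_YZ {n l r : ℕ} (hr : r ≤ n) (h : n * l ≤ r * (2 * n - r))
    {M : Fin n → Fin n → RR n r} (hM : IsS n l r M) (hne : ∃ i j, M i j ≠ 0) :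
    ∃ Y Z : Fin n → Fin r → RR n r, (∀ i j : Fin n, ((j - i : Fin n) : ℕ) < l → XX Y Z i j = 0) ∧
      ∃ i j, XX Y Z i j ≠ 0 := by
  classical
  obtain ⟨w, hw0, hw⟩ := exists_ker hr h hM hne
  obtain ⟨b, hb⟩ := IsLocalization.exist_integer_multiples_of_finite (nonZeroDivisors (RR n r))
    (fun x : (Fin (n - r) × Fin r) ⊕ (Fin n × Fin r) => Sum.elim w.1 w.2 x)
  have hb1 : ∀ x, ∃ y : RR n r, algebraMap (RR n r) (FK n r) y = (b : RR n r) • w.1 x := fun x => hb (Sum.inl x)
  have hb2 : ∀ x, ∃ y : RR n r, algebraMap (RR n r) (FK n r) y = (b : RR n r) • w.2 x := fun x => hb (Sum.inr x)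
  choose y hy using hb1
  choose z hz using hb2
  have hinjφ : Function.Injective (algebraMap (RR n r) (FK n r)) := IsFractionRing.injective _ _
  have hbne : algebraMap (RR n r) (FK n r) (b : RR n r) ≠ 0 := by
    intro h0
    have : (b : RR n r) = 0 := hinjφ (by rw [h0, map_zero])
    exact nonZeroDivisors.coe_ne_zero b this
  refine ⟨ext0 y, fun i a => z (i, a), ?_, ?_⟩
  · intro i j hij
    apply hinjφ
    rw [map_zero]
    have := congrFun hw ⟨(i, j), hij⟩
    simp only [tau, LinearMap.coe_mk, AddHom.coe_mk, Pi.zero_apply] at this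
    have h2 : algebraMap (RR n r) (FK n r) (XX (ext0 y) (fun i a => z (i, a)) i j) =
        algebraMap (RR n r) (FK n r) (b : RR n r) *
        ∑ a, (algebraMap (RR n r) (FK n r) (AA i a) * ext0 w.1 j a +
        w.2 (i, a) * algebraMap (RR n r) (FK n r) (BB j a)) := by
      unfold XX
      rw [map_sum, Finset.mul_sum]
      apply Finset.sum_congr rfl
      intro a _
      rw [map_add, map_mul, map_mul, hz, Algebra.smul_def]
      have : algebraMap (RR n r) (FK n r) (ext0 y j a) = algebraMap (RR n r) (FK n r) (b : RR n r) * ext0 w.1 j a := by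
        unfold ext0
        split_ifs with h1
        · rw [hy, Algebra.smul_def]
        · simp
      rw [this]
      ring
    rw [h2, this, mul_zero]
  · by_contra hcon
    push Not at hcon
    obtain ⟨hY0, hZ0⟩ := YZ_zero hr (ext0 y) (fun i a => z (i, a)) (by
      intro j a hj
      unfold ext0
      rw [dif_neg (by omega)]) hcon
    apply hw0
    have e1 : w.1 = 0 := by
      funext x
      obtain ⟨k, a⟩ := x
      have h1 := congrFun (congrFun hY0 ⟨(k : ℕ) + r, by have := k.2; omega⟩) a
      unfold ext0 at h1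
      rw [dif_pos (by simp)] at h1
      simp only [Pi.zero_apply] at h1
      have h2 : y (k, a) = 0 := by
        rw [← h1]
        congr 2
        apply Fin.ext
        simp
      have h3 := hy (k, a)
      rw [h2, map_zero, Algebra.smul_def] at h3
      rcases mul_eq_zero.mp h3.symm with h4 | h4
      · exact absurd h4 hbne
      · exact h4
    have e2 : w.2 = 0 := by
      funext x
      obtain ⟨k, a⟩ := x
      have h1 := congrFun (congrFun hZ0 k) a
      simp only [Pi.zero_apply] at h1
      have h3 := hz (k, a)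
      rw [h1, map_zero, Algebra.smul_def] at h3
      rcases mul_eq_zero.mp h3.symm with h4 | h4
      · exact absurd h4 hbne
      · exact h4
    exact Prod.ext e1 e2

/-- the main vanishing theorem -/
theorem isS_zero {n l r : ℕ} [NeZero n] (hr : r ≤ n) (h : n * l ≤ r * (2 * n - r))
    {M : Fin n → Fin n → RR n r} (hM : IsS n l r M) : ∀ i j, M i j = 0 := by
  by_contra hcon
  push Not at hcon
  obtain ⟨Y, Z, hX, i₁, j₁, hne⟩ := exists_YZ hr h hM hcon
  obtain ⟨i, j, hij⟩ := hcon
  apply hij
  refine isS_eq_zero_of_rel j₁ (fun i => XX Y Z i j₁) ?_ (rel_col Y Z hX j₁) ?_ hM i j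
  · intro h0
    exact hne (congrFun h0 i₁)
  · intro i hi
    by_contra hcon2
    exact hi (hX i j₁ (by omega))

end Pool.Agent.H335R3
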