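import Mathlib
import Pool.Agent.H394R3.ET.Stmts
import Pool.Agent.H878.BCSel
import Pool.Agent.H144R3.Task469F

/-!
# Task ET-SELB of project ET: the theta relation gives an element of the Selberg class with all data

The analytic part is helper878's wrapper (`Pool.Agent.H878.BCSel`); here the functional equation is
checked at all points where the gamma factors are finite, and the data are put in the structure `Sel`.
-/

set_option autoImplicit false

open Finset

namespace Pool.Agent.H335R3.ETSelB

open Pool.Agent.H96R3.BC (vv cf)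
open Pool.Agent.H469R10.HO (TaskF uu)
open Pool.Agent.H13R3.EM (Sel)
open Pool.Agent.H878.BCSel

theorem taskSelB : Pool.Agent.H394R3.ET.TaskSelB := by
  intro Q j₀ y hQ hj hR hy hrel
  have hF : TaskF := Pool.Agent.H144R3.T469F.taskF
  obtain ⟨c, hcdef⟩ : ∃ c : ℝ, c = ((j₀ : ℝ) ^ (2 * Q)) ^ (-(1 / (4 * (Q : ℝ)))) := ⟨_, rfl⟩
  obtain ⟨lam, hlam⟩ : ∃ lam : ℝ, lam = 4 * (Q : ℝ) := ⟨_, rfl⟩
  have hvv : ∀ n, vv Q j₀ n = uu c lam n := by
    intro n
    rw [vv_eq Q j₀ hj n, hcdef, hlam]
  have hj0 : (0 : ℝ) < (j₀ : ℝ) := by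
    have : (2 : ℝ) ≤ j₀ := by exact_mod_cast hj
    linarith
  have hc : 0 < c := by rw [hcdef]; positivity
  have hQ1 : (1 : ℝ) ≤ Q := by exact_mod_cast hQ
  have hl4 : 4 ≤ lam := by rw [hlam]; linarith
  have hl : 0 < lam := by linarith
  have hu0 : uu c lam 0 = 0 := by
    unfold uu
    rw [Nat.cast_zero, Real.zero_rpow (by positivity), mul_zero]
  simp only [hvv] at hrel
  obtain ⟨Λ, hΛd, hΛfe, hΛc, hΛs, C, hΛg⟩ := hF c lam (lam + 4) hc (by linarith) (by linarith)
    (fun n => cf y n * uu c lam n ^ 2)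
    (by simp [cf_zero])
    (by
      obtain ⟨C, hC⟩ := hR (1 / (2 * lam)) (by positivity)
      have hs : Summable (fun n : ℕ => (C * c ^ (-(lam + 1))) * (n : ℝ) ^ (-(1 + 1 / (2 * lam)))) := by
        apply Summable.mul_left
        rw [Real.summable_nat_rpow]
        have : 0 < 1 / (2 * lam) := by positivity
        linarith
      refine Summable.of_nonneg_of_le (fun n => ?_) (fun n => ?_) hs
      · apply mul_nonneg (abs_nonneg _)
        apply Real.rpow_nonneg
        rcases Nat.eq_zero_or_pos n with h | h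
        · rw [h, hu0]
        · exact (uu_pos hc h).le
      rcases Nat.eq_zero_or_pos n with h | h
      · subst h
        rw [cf_zero, zero_mul, abs_zero, zero_mul, Nat.cast_zero, Real.zero_rpow, mul_zero]
        have : 0 < 1 / (2 * lam) := by positivity
        linarith
      · have hu := uu_pos (lam := lam) hc h
        have hn : (0 : ℝ) < n := by exact_mod_cast h
        rw [abs_mul, abs_of_pos (pow_pos hu _), mul_assoc, ← Real.rpow_natCast,
          ← Real.rpow_add hu]
        have e1 : ((2 : ℕ) : ℝ) + -((lam + 4) - 1) = -(lam + 1) := by push_cast; ring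
        rw [e1]
        have e2 : uu c lam n ^ (-(lam + 1)) = c ^ (-(lam + 1)) * (n : ℝ) ^ (-(1 + 1 / lam)) := by
          unfold uu
          rw [Real.mul_rpow hc.le (by positivity), ← Real.rpow_mul hn.le]
          congr 2
          field_simp
        rw [e2]
        calc |cf y n| * (c ^ (-(lam + 1)) * (n : ℝ) ^ (-(1 + 1 / lam)))
            ≤ (C * (n : ℝ) ^ (1 / (2 * lam))) * (c ^ (-(lam + 1)) * (n : ℝ) ^ (-(1 + 1 / lam))) := by
              apply mul_le_mul_of_nonneg_right (hC n h) (by positivity)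
          _ = (C * c ^ (-(lam + 1))) * ((n : ℝ) ^ (1 / (2 * lam)) * (n : ℝ) ^ (-(1 + 1 / lam))) := by
              ring
          _ = _ := by
              rw [← Real.rpow_add hn]
              congr 2
              field_simp
              try ring)
    1 (Or.inl rfl)
    (by
      intro t ht
      have h1 := hrel t ht
      have h2 : t ^ (lam + 4) = t ^ (4 * Q + 4) := by
        rw [← Real.rpow_natCast, hlam]
        push_cast
        rfl
      rw [h2, one_mul]
      exact h1)
  have hFser : ∀ s : ℂ, 2 < s.re → FF c lam Λ s = LSeries (ff y) s := by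
    intro s hs
    apply FF_series hc hl
    apply hΛs
    have h1 : (((lam : ℝ) : ℂ) * s + 2).re = lam * s.re + 2 := by simp
    rw [h1]
    nlinarith
  obtain ⟨ρ, C', hgr⟩ := FF_growth (c := c) (lam := lam) (by linarith) hΛg
  refine ⟨Sel.mk (ff y) 0 (FF c lam Λ) 1 (Real.exp (-(lam * Real.log c))) (fun _ => lam)
    (fun _ => 2) 1 (bt y) ?_ ?_ (FF_diff hΛd) ⟨ρ, C', hgr⟩ ?_ (Real.exp_pos _) (fun _ => hl)
    (fun _ => by norm_num) norm_one ?_ (fun n hn => bt_zero hn) ⟨1 / 4, by norm_num, 1, ?_⟩ ?_,
    rfl, ?_, fun n _ => rfl⟩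
  · unfold ff
    rw [cf_one]
    simp
  · intro e he
    obtain ⟨C, hC⟩ := hR e he
    refine ⟨C, fun n hn => ?_⟩
    unfold ff
    rw [Complex.norm_real, Real.norm_eq_abs]
    exact hC n hn
  · intro s hs
    rw [pow_zero, one_mul]
    exact FF_eq hΛd hR hFser hs
  · intro s _ _ hs1 hs2
    have g1 := FF_completed (c := c) (lam := lam) (Λ := Λ) (s := s) (hs1 0)
    have g2 := FF_completed (c := c) (lam := lam) (Λ := Λ) (s := 1 - starRingEnd ℂ s) (hs2 0)
    simp only [pow_zero, div_one, Finset.univ_unique, Finset.prod_singleton]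
    rw [g1, g2, one_mul, ← hΛc]
    have h3 : starRingEnd ℂ (((lam : ℝ) : ℂ) * (1 - starRingEnd ℂ s) + 2) =
        (((lam + 4 : ℝ)) : ℂ) - (((lam : ℝ) : ℂ) * s + 2) := by
      rw [map_add, map_mul, map_sub, map_one, Complex.conj_conj, Complex.conj_ofReal]
      have h4 : starRingEnd ℂ (2 : ℂ) = 2 := Complex.conj_ofNat 2
      rw [h4]
      push_cast
      ring
    rw [h3, hΛfe]
    simp
  · intro n _
    exact norm_bt_le hy n
  · intro s hs
    exact ⟨summable_bt hR hy hs, exp_bt hR hy hs⟩
  · unfold Sel.deg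
    simp only [Finset.univ_unique, Finset.sum_const, Finset.card_singleton, one_smul]
    rw [hlam]
    ring

end Pool.Agent.H335R3.ETSelB
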